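import Mathlib

/-!
# MP_aedb6c: extremal graphs for diameter over average distance

For every `n ≥ 3` some balanced bug on `n` vertices maximises `D / l` among all connected graphs
on `n` vertices.
-/

namespace Pool.Agent.Results.MP_aedb6c_co.BalancedBug

open Finset SimpleGraph

/-- The average distance of `G`: the mean of `d(u,v)` over the unordered pairs of distinct vertices
(the sum over ordered pairs divided by `n (n-1)`). -/
noncomputable def avgDist {V : Type*} [Fintype V] (G : SimpleGraph V) : ℝ :=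
  (∑ u, ∑ v, (G.dist u v : ℝ)) / ((Fintype.card V : ℝ) * ((Fintype.card V : ℝ) - 1))

/-- The bug `Bug_{p,k₁,k₂}`.  Its vertices are a first path `inl i` (`i < k₁`), the
clique vertices `inr (inl c)` (`c < p`), and a second path `inr (inr j)` (`j < k₂`).
The clique vertices are pairwise adjacent except for `u = 0` and `v = 1`; the two paths are paths;
the vertex `0` of the first path is joined to `u = 0`, the vertex `0` of the second path is
joined to `v = 1`. -/
def bug (p k₁ k₂ : ℕ) : SimpleGraph (Fin k₁ ⊕ (Fin p ⊕ Fin k₂)) :=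
  SimpleGraph.fromRel fun x y =>
    match x, y with
    | Sum.inl i, Sum.inl j => (i : ℕ) + 1 = j
    | Sum.inl i, Sum.inr (Sum.inl c) => (i : ℕ) = 0 ∧ (c : ℕ) = 0
    | Sum.inr (Sum.inl c), Sum.inr (Sum.inl c') => ¬ ((c : ℕ) = 0 ∧ (c' : ℕ) = 1) ∧
        ¬ ((c : ℕ) = 1 ∧ (c' : ℕ) = 0)
    | Sum.inr (Sum.inl c), Sum.inr (Sum.inr j) => (c : ℕ) = 1 ∧ (j : ℕ) = 0
    | Sum.inr (Sum.inr i), Sum.inr (Sum.inr j) => (i : ℕ) + 1 = j
    | _, _ => False

/-- Level function of the bug. -/
def lev (p k₁ k₂ : ℕ) : Fin k₁ ⊕ (Fin p ⊕ Fin k₂) → ℤ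
  | Sum.inl i => (k₁ : ℤ) - 1 - (i : ℕ)
  | Sum.inr (Sum.inl c) => if (c : ℕ) = 0 then (k₁ : ℤ) else if (c : ℕ) = 1 then (k₁ : ℤ) + 2
      else (k₁ : ℤ) + 1
  | Sum.inr (Sum.inr j) => (k₁ : ℤ) + 3 + (j : ℕ)

/-- Adjacency in the bug: distinct vertices whose levels differ by at most one. -/
lemma bug_adj (p k₁ k₂ : ℕ) (x y : Fin k₁ ⊕ (Fin p ⊕ Fin k₂)) :
    (bug p k₁ k₂).Adj x y ↔ x ≠ y ∧ |lev p k₁ k₂ x - lev p k₁ k₂ y| ≤ 1 := by
  unfold bug
  rw [SimpleGraph.fromRel_adj]
  refine and_congr_right fun hne => ?_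
  rcases x with i | c | j <;> rcases y with i' | c' | j' <;> simp only [lev, or_false, false_or]
  · have h1 := i.2
    have h2 := i'.2
    have hne' : (i : ℕ) ≠ i' := fun h => hne (by rw [Fin.ext h])
    rw [abs_le]
    omega
  · have h1 := i.2
    rw [abs_le]
    split_ifs <;> omega
  · have h1 := i.2
    rw [abs_le]
    constructor
    · intro h; exact h.elim
    · rintro ⟨h, h'⟩; omega
  · have h1 := i'.2
    rw [abs_le]
    split_ifs <;> omega
  · have hne' : (c : ℕ) ≠ c' := fun h => hne (by rw [Fin.ext h])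
    rw [abs_le]
    split_ifs <;> omega
  · have h1 := j'.2
    rw [abs_le]
    split_ifs <;> omega
  · have h1 := i'.2
    rw [abs_le]
    constructor
    · intro h; exact h.elim
    · rintro ⟨h, h'⟩; omega
  · have h1 := j.2
    rw [abs_le]
    split_ifs <;> omega
  · have hne' : (j : ℕ) ≠ j' := fun h => hne (by rw [Fin.ext h])
    rw [abs_le]
    omega

lemma lev_nonneg (p k₁ k₂ : ℕ) (x : Fin k₁ ⊕ (Fin p ⊕ Fin k₂)) : 0 ≤ lev p k₁ k₂ x := by
  rcases x with i | c | j
  · have := i.2
    simp only [lev]; omega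
  · simp only [lev]; split_ifs <;> omega
  · simp only [lev]; omega

lemma lev_le (p k₁ k₂ : ℕ) (x : Fin k₁ ⊕ (Fin p ⊕ Fin k₂)) :
    lev p k₁ k₂ x ≤ ((k₁ + k₂ + 2 : ℕ) : ℤ) := by
  rcases x with i | c | j
  · have := i.2
    simp only [lev]; push_cast; omega
  · simp only [lev]; push_cast; split_ifs <;> omega
  · have := j.2
    simp only [lev]; push_cast; omega

lemma lev_surj (p k₁ k₂ : ℕ) (hp : 3 ≤ p) (t : ℕ) (ht : t ≤ k₁ + k₂ + 2) :
    ∃ x, lev p k₁ k₂ x = (t : ℤ) := by
  rcases lt_trichotomy t k₁ with h | h | h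
  · refine ⟨Sum.inl ⟨k₁ - 1 - t, by omega⟩, ?_⟩
    simp only [lev]
    omega
  · refine ⟨Sum.inr (Sum.inl ⟨0, by omega⟩), ?_⟩
    simp [lev, h]
  · rcases Nat.lt_or_ge t (k₁ + 3) with h' | h'
    · rcases Nat.lt_or_ge t (k₁ + 2) with h'' | h''
      · refine ⟨Sum.inr (Sum.inl ⟨2, by omega⟩), ?_⟩
        simp only [lev]
        rw [if_neg (by omega), if_neg (by omega)]
        omega
      · refine ⟨Sum.inr (Sum.inl ⟨1, by omega⟩), ?_⟩
        simp only [lev]
        rw [if_neg (by omega), if_pos trivial]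
        omega
    · refine ⟨Sum.inr (Sum.inr ⟨t - (k₁ + 3), by omega⟩), ?_⟩
      simp only [lev]
      omega

lemma lev_inj (p k₁ k₂ : ℕ) (x y : Fin k₁ ⊕ (Fin p ⊕ Fin k₂))
    (h : lev p k₁ k₂ x = lev p k₁ k₂ y) (hx : lev p k₁ k₂ x ≠ (k₁ : ℤ) + 1) : x = y := by
  rcases x with i | c | j <;> rcases y with i' | c' | j' <;> simp only [lev] at h hx
  · have h1 := i.2
    have h2 := i'.2
    congr 1
    apply Fin.ext
    omega
  · have h1 := i.2
    exfalso
    split_ifs at h <;> omega
  · have h1 := i.2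
    omega
  · have h1 := i'.2
    exfalso
    split_ifs at h <;> omega
  · congr 2
    apply Fin.ext
    split_ifs at h hx <;> omega
  · exfalso
    split_ifs at h hx <;> omega
  · have h1 := i'.2
    omega
  · exfalso
    split_ifs at h hx <;> omega
  · congr 2
    apply Fin.ext
    omega

section level

variable {V : Type*} (H : SimpleGraph V) (f : V → ℤ)

lemma walk_lev (hadj : ∀ x y, H.Adj x y → |f x - f y| ≤ 1) {x y : V} (p : H.Walk x y) :
    |f x - f y| ≤ (p.length : ℤ) := by
  induction p with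
  | nil => simp
  | cons h p ih =>
    have h1 := hadj _ _ h
    simp only [Walk.length_cons]
    push_cast
    rw [abs_le] at *
    omega

lemma exists_walk (D : ℕ) (hadj : ∀ x y, x ≠ y → |f x - f y| ≤ 1 → H.Adj x y)
    (h0 : ∀ x, 0 ≤ f x) (hD : ∀ x, f x ≤ (D : ℤ))
    (hsurj : ∀ t : ℕ, t ≤ D → ∃ x, f x = (t : ℤ)) :
    ∀ k : ℕ, ∀ x y, f y - f x = (k : ℤ) → x ≠ y → ∃ p : H.Walk x y, p.length ≤ max 1 k := by
  intro k
  induction k with
  | zero =>
    intro x y hxy hne
    exact ⟨Walk.cons (hadj x y hne (by rw [abs_le]; push_cast at hxy; omega)) Walk.nil, by simp⟩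
  | succ k ih =>
    intro x y hxy hne
    rcases Nat.eq_zero_or_pos k with hk | hk
    · subst hk
      exact ⟨Walk.cons (hadj x y hne (by rw [abs_le]; push_cast at hxy; omega)) Walk.nil, by simp⟩
    · have hx := h0 x
      have hy := hD y
      obtain ⟨z, hz⟩ := hsurj (f y - 1).toNat (by omega)
      have hz' : f z = f y - 1 := by rw [hz]; omega
      have hzx : x ≠ z := by
        intro h
        rw [h] at hxy
        push_cast at hxy
        omega
      obtain ⟨q, hq⟩ := ih x z (by rw [hz']; push_cast at hxy; omega) hzx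
      have hzy : z ≠ y := by
        intro h
        rw [h] at hz'
        omega
      refine ⟨q.concat (hadj z y hzy (by rw [abs_le, hz']; omega)), ?_⟩
      rw [Walk.length_concat]
      omega

end level

/-- The weight of the `i`-th path vertex seen from an extra vertex on level `m`. -/
def bb (m i : ℕ) : ℕ := max 1 ((i : ℤ) - (m : ℤ)).natAbs

lemma split_sum {V : Type*} [Fintype V] [DecidableEq V] (D : ℕ) (h : Fin (D + 1) → V)
    (hinj : Function.Injective h) (F : V → V → ℕ) (hsymm : ∀ x y, F x y = F y x) :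
    ∑ x, ∑ y, F x y = (∑ i, ∑ j, F (h i) (h j)) + 2 * ∑ x ∈ (univ.image h)ᶜ, ∑ i, F x (h i)
      + ∑ x ∈ (univ.image h)ᶜ, ∑ y ∈ (univ.image h)ᶜ, F x y := by
  have key : ∀ g : V → ℕ, ∑ x, g x = (∑ i, g (h i)) + ∑ x ∈ (univ.image h)ᶜ, g x := by
    intro g
    rw [← Finset.sum_add_sum_compl (univ.image h) g, Finset.sum_image]
    intro a _ b _ hab
    exact hinj hab
  rw [key]
  have h1 : ∀ x, ∑ y, F x y = (∑ i, F x (h i)) + ∑ y ∈ (univ.image h)ᶜ, F x y := fun x => key _
  simp only [h1, Finset.sum_add_distrib]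
  have h2 : ∑ i, ∑ y ∈ (univ.image h)ᶜ, F (h i) y = ∑ x ∈ (univ.image h)ᶜ, ∑ i, F x (h i) := by
    rw [Finset.sum_comm]
    refine Finset.sum_congr rfl fun x _ => Finset.sum_congr rfl fun i _ => hsymm _ _
  rw [h2]
  ring

/-- The common value: the distance sum of the bug of diameter `D` with `N` extra vertices. -/
def val (D m N : ℕ) : ℕ :=
  (∑ i : Fin (D + 1), ∑ j : Fin (D + 1), (((i : ℕ) : ℤ) - ((j : ℕ) : ℤ)).natAbs)
    + 2 * (N * ∑ i : Fin (D + 1), bb m i) + N * (N - 1)

lemma card_compl_image {V : Type*} [Fintype V] [DecidableEq V] (D : ℕ) (h : Fin (D + 1) → V)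
    (hinj : Function.Injective h) : ((univ.image h)ᶜ).card = Fintype.card V - (D + 1) := by
  rw [Finset.card_compl, Finset.card_image_of_injective _ hinj]
  simp

lemma bug_walk (p k₁ k₂ : ℕ) (hp : 3 ≤ p) (x y : Fin k₁ ⊕ (Fin p ⊕ Fin k₂)) (hne : x ≠ y) :
    ∃ w : (bug p k₁ k₂).Walk x y,
      w.length ≤ max 1 (lev p k₁ k₂ y - lev p k₁ k₂ x).natAbs := by
  have ha : ∀ x y, x ≠ y → |lev p k₁ k₂ x - lev p k₁ k₂ y| ≤ 1 → (bug p k₁ k₂).Adj x y :=
    fun x y h1 h2 => (bug_adj p k₁ k₂ x y).2 ⟨h1, h2⟩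
  have hw := exists_walk (bug p k₁ k₂) (lev p k₁ k₂) (k₁ + k₂ + 2) ha (lev_nonneg p k₁ k₂)
    (lev_le p k₁ k₂) (fun t ht => lev_surj p k₁ k₂ hp t ht)
  rcases le_total (lev p k₁ k₂ x) (lev p k₁ k₂ y) with h | h
  · exact hw _ x y (by omega) hne
  · obtain ⟨w, hw'⟩ := hw (lev p k₁ k₂ y - lev p k₁ k₂ x).natAbs y x (by omega) (Ne.symm hne)
    exact ⟨w.reverse, by rw [Walk.length_reverse]; exact hw'⟩

lemma bug_dist (p k₁ k₂ : ℕ) (hp : 3 ≤ p) (x y : Fin k₁ ⊕ (Fin p ⊕ Fin k₂)) (hne : x ≠ y) :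
    (bug p k₁ k₂).dist x y ≤ max 1 (lev p k₁ k₂ y - lev p k₁ k₂ x).natAbs := by
  obtain ⟨w, hw⟩ := bug_walk p k₁ k₂ hp x y hne
  exact (dist_le w).trans hw

lemma bug_connected (p k₁ k₂ : ℕ) (hp : 3 ≤ p) : (bug p k₁ k₂).Connected := by
  have : Nonempty (Fin k₁ ⊕ (Fin p ⊕ Fin k₂)) := ⟨Sum.inr (Sum.inl ⟨0, by omega⟩)⟩
  refine SimpleGraph.Connected.mk fun x y => ?_
  by_cases h : x = y
  · subst h; exact Reachable.refl _
  · obtain ⟨w, -⟩ := bug_walk p k₁ k₂ hp x y h
    exact ⟨w⟩

lemma bug_sum_le (p k₁ k₂ : ℕ) (hp : 3 ≤ p) :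
    ∑ x, ∑ y, (bug p k₁ k₂).dist x y ≤ val (k₁ + k₂ + 2) (k₁ + 1) (p - 3) := by
  classical
  have hs := fun i : Fin (k₁ + k₂ + 2 + 1) => lev_surj p k₁ k₂ hp i (by have := i.2; omega)
  choose h hh using hs
  have hinj : Function.Injective h := by
    intro i j hij
    have h1 := hh i
    rw [hij, hh j] at h1
    apply Fin.ext
    exact_mod_cast h1.symm
  rw [split_sum (k₁ + k₂ + 2) h hinj _ (fun x y => dist_comm)]
  have hcard : ((univ.image h)ᶜ).card = p - 3 := by
    rw [card_compl_image _ h hinj]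
    simp only [Fintype.card_sum, Fintype.card_fin]
    omega
  have hlev : ∀ x ∈ (univ.image h)ᶜ, lev p k₁ k₂ x = (k₁ : ℤ) + 1 := by
    intro x hx
    by_contra hne
    have h0 := lev_nonneg p k₁ k₂ x
    have h1 := lev_le p k₁ k₂ x
    have hx' : x = h ⟨(lev p k₁ k₂ x).toNat, by omega⟩ := by
      apply lev_inj p k₁ k₂ _ _ _ hne
      rw [hh]
      simp only
      omega
    rw [Finset.mem_compl] at hx
    apply hx
    rw [hx']
    exact Finset.mem_image_of_mem _ (Finset.mem_univ _)
  unfold val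
  refine Nat.add_le_add (Nat.add_le_add ?_ ?_) ?_
  · refine Finset.sum_le_sum fun i _ => Finset.sum_le_sum fun j _ => ?_
    by_cases hij : i = j
    · subst hij; simp
    · have h1 := bug_dist p k₁ k₂ hp (h i) (h j) (fun he => hij (hinj he))
      rw [hh, hh] at h1
      have h2 : (i : ℕ) ≠ j := fun he => hij (Fin.ext he)
      omega
  · refine Nat.mul_le_mul_left 2 ?_
    rw [← hcard, ← smul_eq_mul, ← Finset.sum_const]
    refine Finset.sum_le_sum fun x hx => Finset.sum_le_sum fun i _ => ?_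
    have hne : x ≠ h i := by
      intro he
      rw [Finset.mem_compl] at hx
      exact hx (by rw [he]; exact Finset.mem_image_of_mem _ (Finset.mem_univ _))
    have h1 := bug_dist p k₁ k₂ hp x (h i) hne
    rw [hh, hlev x hx] at h1
    unfold bb
    push_cast
    exact h1
  · have h1 : ∀ x ∈ (univ.image h)ᶜ, ∑ y ∈ (univ.image h)ᶜ, (bug p k₁ k₂).dist x y ≤ p - 3 - 1 := by
      intro x hx
      rw [← Finset.add_sum_erase _ _ hx, dist_self, zero_add]
      calc ∑ y ∈ ((univ.image h)ᶜ).erase x, (bug p k₁ k₂).dist x y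
          ≤ ∑ y ∈ ((univ.image h)ᶜ).erase x, 1 := by
            refine Finset.sum_le_sum fun y hy => ?_
            have hy' := Finset.mem_of_mem_erase hy
            have h1 := bug_dist p k₁ k₂ hp x y (Finset.ne_of_mem_erase hy).symm
            rw [hlev x hx, hlev y hy'] at h1
            simpa using h1
        _ = p - 3 - 1 := by
            rw [Finset.sum_const, smul_eq_mul, mul_one, Finset.card_erase_of_mem hx, hcard]
    calc ∑ x ∈ (univ.image h)ᶜ, ∑ y ∈ (univ.image h)ᶜ, (bug p k₁ k₂).dist x y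
        ≤ ∑ x ∈ (univ.image h)ᶜ, (p - 3 - 1) := Finset.sum_le_sum h1
      _ = (p - 3) * (p - 3 - 1) := by rw [Finset.sum_const, smul_eq_mul, hcard]

lemma bug_diam_ge (p k₁ k₂ : ℕ) (hp : 3 ≤ p) : k₁ + k₂ + 2 ≤ (bug p k₁ k₂).diam := by
  classical
  have : Nonempty (Fin k₁ ⊕ (Fin p ⊕ Fin k₂)) := ⟨Sum.inr (Sum.inl ⟨0, by omega⟩)⟩
  obtain ⟨x, hx⟩ := lev_surj p k₁ k₂ hp 0 (by omega)
  obtain ⟨y, hy⟩ := lev_surj p k₁ k₂ hp (k₁ + k₂ + 2) le_rfl
  obtain ⟨w, hw⟩ := (bug_connected p k₁ k₂ hp).exists_walk_length_eq_dist x y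
  have h1 := walk_lev (bug p k₁ k₂) (lev p k₁ k₂) (fun x y h => ((bug_adj p k₁ k₂ x y).1 h).2) w
  rw [hx, hy, hw] at h1
  have h2 : (bug p k₁ k₂).dist x y ≤ (bug p k₁ k₂).diam :=
    dist_le_diam (connected_iff_ediam_ne_top.1 (bug_connected p k₁ k₂ hp))
  rw [abs_le] at h1
  push_cast at h1
  omega

/-- The lower bound for the distance sum of a connected graph of diameter `D`. -/
lemma sum_ge {V : Type*} [Fintype V] (G : SimpleGraph V) (hG : G.Connected) (D m : ℕ)
    (hD : G.diam = D) (hm : D = 2 * m ∨ D = 2 * m + 1) :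
    D + 1 ≤ Fintype.card V ∧
      val D m (Fintype.card V - (D + 1)) ≤ ∑ x, ∑ y, G.dist x y := by
  classical
  have := hG.nonempty
  obtain ⟨u, v, huv⟩ := G.exists_dist_eq_diam
  obtain ⟨p, hp⟩ := hG.exists_walk_length_eq_dist u v
  have hlen : p.length = D := by rw [hp, huv, hD]
  have hstep : ∀ i k, i + k ≤ D → G.dist (p.getVert i) (p.getVert (i + k)) ≤ k := by
    intro i k
    induction k with
    | zero => intro _; simp
    | succ k ih =>
      intro hk
      have h1 := ih (by omega)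
      have h2 : G.Adj (p.getVert (i + k)) (p.getVert (i + k + 1)) :=
        p.adj_getVert_succ (by omega)
      have h3 : G.dist (p.getVert (i + k)) (p.getVert (i + k + 1)) = 1 :=
        dist_eq_one_iff_adj.2 h2
      have h4 := hG.dist_triangle (u := p.getVert i) (v := p.getVert (i + k))
        (w := p.getVert (i + k + 1))
      rw [← add_assoc]
      omega
  have hdist : ∀ i j, i ≤ j → j ≤ D → G.dist (p.getVert i) (p.getVert j) = j - i := by
    intro i j hij hj
    have h1 := hstep i (j - i) (by omega)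
    rw [show i + (j - i) = j by omega] at h1
    have h2 := hstep 0 i (by omega)
    have h3 := hstep j (D - j) (by omega)
    rw [show j + (D - j) = p.length by omega, Walk.getVert_length] at h3
    rw [Walk.getVert_zero, zero_add] at h2
    have h4 := hG.dist_triangle (u := u) (v := p.getVert i) (w := v)
    have h5 := hG.dist_triangle (u := p.getVert i) (v := p.getVert j) (w := v)
    rw [huv, hD] at h4
    omega
  set h : Fin (D + 1) → V := fun i => p.getVert i with hh
  have hdh : ∀ i j : Fin (D + 1), G.dist (h i) (h j) = (((i : ℕ) : ℤ) - ((j : ℕ) : ℤ)).natAbs := by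
    intro i j
    have hi := i.2
    have hj := j.2
    rcases le_total (i : ℕ) j with h' | h'
    · rw [hh]
      simp only
      rw [hdist i j h' (by omega)]
      omega
    · rw [hh]
      simp only
      rw [dist_comm, hdist j i h' (by omega)]
      omega
  have hinj : Function.Injective h := by
    intro i j hij
    have h1 := hdh i j
    rw [hij, dist_self] at h1
    apply Fin.ext
    omega
  refine ⟨?_, ?_⟩
  · have := Fintype.card_le_of_injective h hinj
    simpa using this
  rw [split_sum D h hinj _ (fun x y => dist_comm)]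
  have hcard := card_compl_image _ h hinj
  unfold val
  refine Nat.add_le_add (Nat.add_le_add ?_ ?_) ?_
  · refine Finset.sum_le_sum fun i _ => Finset.sum_le_sum fun j _ => ?_
    rw [hdh]
  · refine Nat.mul_le_mul_left 2 ?_
    rw [← hcard, ← smul_eq_mul, ← Finset.sum_const]
    refine Finset.sum_le_sum fun x hx => ?_
    have hpos : ∀ i, 1 ≤ G.dist x (h i) := by
      intro i
      apply hG.pos_dist_of_ne
      intro he
      rw [Finset.mem_compl] at hx
      exact hx (by rw [he]; exact Finset.mem_image_of_mem _ (Finset.mem_univ _))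
    have hpair : ∀ i : Fin (D + 1),
        bb m i + bb m (Fin.rev i : Fin (D + 1)) ≤ G.dist x (h i) + G.dist x (h (Fin.rev i)) := by
      intro i
      have h1 := hpos i
      have h2 := hpos (Fin.rev i)
      have h3 := hG.dist_triangle (u := h i) (v := x) (w := h (Fin.rev i))
      rw [hdh, dist_comm (u := h i)] at h3
      have h4 := i.2
      have h5 : ((Fin.rev i : Fin (D + 1)) : ℕ) = D - i := by
        rw [Fin.val_rev]; omega
      rw [h5] at h3 ⊢
      unfold bb
      omega
    have h6 : ∑ i : Fin (D + 1), bb m (Fin.rev i : Fin (D + 1)) = ∑ i : Fin (D + 1), bb m i :=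
      Equiv.sum_comp Fin.revPerm (fun i : Fin (D + 1) => bb m i)
    have h7 : ∑ i : Fin (D + 1), G.dist x (h (Fin.rev i)) = ∑ i : Fin (D + 1), G.dist x (h i) :=
      Equiv.sum_comp Fin.revPerm (fun i : Fin (D + 1) => G.dist x (h i))
    have h8 := Finset.sum_le_sum fun (i : Fin (D + 1)) (_ : i ∈ univ) => hpair i
    rw [Finset.sum_add_distrib, Finset.sum_add_distrib, h6, h7] at h8
    omega
  · rw [← hcard]
    calc ((univ.image h)ᶜ).card * (((univ.image h)ᶜ).card - 1)
        = ∑ x ∈ (univ.image h)ᶜ, (((univ.image h)ᶜ).card - 1) := by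
          rw [Finset.sum_const, smul_eq_mul]
      _ ≤ _ := by
          refine Finset.sum_le_sum fun x hx => ?_
          rw [← Finset.add_sum_erase _ _ hx, dist_self, zero_add,
            ← Finset.card_erase_of_mem hx, ← mul_one (((univ.image h)ᶜ).erase x).card,
            ← smul_eq_mul, ← Finset.sum_const]
          refine Finset.sum_le_sum fun y hy => ?_
          exact hG.pos_dist_of_ne (Finset.ne_of_mem_erase hy).symm

lemma avgDist_eq {V : Type*} [Fintype V] (G : SimpleGraph V) :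
    avgDist G = ((∑ u, ∑ v, G.dist u v : ℕ) : ℝ) /
      ((Fintype.card V : ℝ) * ((Fintype.card V : ℝ) - 1)) := by
  unfold avgDist
  push_cast
  rfl

/-- For a connected graph on at least two vertices, `n (n-1)` is at most the distance sum. -/
lemma card_le_sum {V : Type*} [Fintype V] (G : SimpleGraph V) (hG : G.Connected) :
    Fintype.card V * (Fintype.card V - 1) ≤ ∑ x, ∑ y, G.dist x y := by
  classical
  calc Fintype.card V * (Fintype.card V - 1) = ∑ x : V, (Fintype.card V - 1) := by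
        rw [Finset.sum_const, smul_eq_mul, Finset.card_univ]
    _ ≤ _ := by
        refine Finset.sum_le_sum fun x _ => ?_
        rw [← Finset.add_sum_erase _ _ (Finset.mem_univ x), dist_self, zero_add,
          ← Finset.card_univ, ← Finset.card_erase_of_mem (Finset.mem_univ x),
          ← mul_one ((univ.erase x).card), ← smul_eq_mul, ← Finset.sum_const]
        refine Finset.sum_le_sum fun y hy => ?_
        exact hG.pos_dist_of_ne (Finset.ne_of_mem_erase hy).symm

/-- For a connected graph, the distance sum is at most `n (n-1)` times the diameter. -/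
lemma sum_le_diam {V : Type*} [Fintype V] (G : SimpleGraph V) (hG : G.Connected) :
    ∑ x, ∑ y, G.dist x y ≤ Fintype.card V * (Fintype.card V - 1) * G.diam := by
  classical
  have := hG.nonempty
  calc ∑ x, ∑ y, G.dist x y ≤ ∑ x : V, ((Fintype.card V - 1) * G.diam) := by
        refine Finset.sum_le_sum fun x _ => ?_
        rw [← Finset.add_sum_erase _ _ (Finset.mem_univ x), dist_self, zero_add,
          ← Finset.card_univ, ← Finset.card_erase_of_mem (Finset.mem_univ x),
          ← smul_eq_mul, ← Finset.sum_const]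
        refine Finset.sum_le_sum fun y _ => ?_
        exact dist_le_diam (connected_iff_ediam_ne_top.1 hG)
    _ = _ := by
        rw [Finset.sum_const, smul_eq_mul, Finset.card_univ]
        ring

lemma avgDist_pos {V : Type*} [Fintype V] (G : SimpleGraph V) (hG : G.Connected)
    (hV : 2 ≤ Fintype.card V) : 1 ≤ avgDist G := by
  rw [avgDist_eq]
  have h1 := card_le_sum G hG
  have h2 : (2 : ℝ) ≤ Fintype.card V := by exact_mod_cast hV
  rw [le_div_iff₀ (by nlinarith), one_mul]
  have h3 : ((Fintype.card V * (Fintype.card V - 1) : ℕ) : ℝ) ≤ ((∑ u, ∑ v, G.dist u v : ℕ) : ℝ) := by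
    exact_mod_cast h1
  rw [Nat.cast_mul, Nat.cast_sub (by omega)] at h3
  simpa using h3

lemma avgDist_le_diam {V : Type*} [Fintype V] (G : SimpleGraph V) (hG : G.Connected)
    (hV : 2 ≤ Fintype.card V) : avgDist G ≤ G.diam := by
  rw [avgDist_eq]
  have h1 := sum_le_diam G hG
  have h2 : (2 : ℝ) ≤ Fintype.card V := by exact_mod_cast hV
  rw [div_le_iff₀ (by nlinarith)]
  have h3 : ((∑ u, ∑ v, G.dist u v : ℕ) : ℝ) ≤
      ((Fintype.card V * (Fintype.card V - 1) * G.diam : ℕ) : ℝ) := by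
    exact_mod_cast h1
  rw [Nat.cast_mul, Nat.cast_mul, Nat.cast_sub (by omega)] at h3
  refine h3.trans (le_of_eq ?_)
  push_cast
  ring

/-- **MP_aedb6c, Q1 (true).**  For every `n ≥ 3` there is a balanced bug `Bug_{p,k₁,k₂}`
(`p ≥ 3`, `p + k₁ + k₂ = n`, `|k₁ - k₂| ≤ 1`), which is a connected graph on `n` vertices, such
that every connected graph `G` on `n` vertices satisfies
`D(G) / l(G) ≤ D(Bug) / l(Bug)`. -/
theorem result : ∀ n : ℕ, 3 ≤ n → ∃ p k₁ k₂ : ℕ, 3 ≤ p ∧ p + k₁ + k₂ = n ∧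
    (k₁ ≤ k₂ + 1 ∧ k₂ ≤ k₁ + 1) ∧ (bug p k₁ k₂).Connected ∧
    ∀ G : SimpleGraph (Fin n), G.Connected →
      (G.diam : ℝ) / avgDist G ≤ ((bug p k₁ k₂).diam : ℝ) / avgDist (bug p k₁ k₂) := by
  intro n hn
  classical
  -- the balanced bug of diameter `D + 2`
  let B : ℕ → ℕ × ℕ × ℕ := fun D => (n - D, D / 2, D - D / 2)
  let r : ℕ → ℝ := fun D => ((bug (B D).1 (B D).2.1 (B D).2.2).diam : ℝ) /
    avgDist (bug (B D).1 (B D).2.1 (B D).2.2)
  obtain ⟨D₀, hD₀, hmax⟩ := Finset.exists_max_image (Finset.range (n - 2)) r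
    ⟨0, by rw [Finset.mem_range]; omega⟩
  rw [Finset.mem_range] at hD₀
  refine ⟨n - D₀, D₀ / 2, D₀ - D₀ / 2, by omega, by omega, by omega,
    bug_connected _ _ _ (by omega), ?_⟩
  intro G hG
  change _ ≤ r D₀
  have hpos := avgDist_pos G hG (by rw [Fintype.card_fin]; omega)
  have hBcard : ∀ D, D < n - 2 →
      Fintype.card (Fin (D / 2) ⊕ (Fin (n - D) ⊕ Fin (D - D / 2))) = n := by
    intro D hD
    simp only [Fintype.card_sum, Fintype.card_fin]
    omega
  have hr1 : ∀ D, D < n - 2 → 1 ≤ r D := by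
    intro D hD
    have hc := bug_connected (n - D) (D / 2) (D - D / 2) (by omega)
    have h1 := avgDist_pos _ hc (by rw [hBcard D hD]; omega)
    have h2 := avgDist_le_diam _ hc (by rw [hBcard D hD]; omega)
    change 1 ≤ ((bug (n - D) (D / 2) (D - D / 2)).diam : ℝ) /
      avgDist (bug (n - D) (D / 2) (D - D / 2))
    rw [le_div_iff₀ (by linarith), one_mul]
    exact h2
  rcases Nat.lt_or_ge G.diam 2 with hd | hd
  · refine le_trans ?_ (hr1 D₀ hD₀)
    rw [div_le_one (by linarith)]
    refine le_trans ?_ hpos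
    have : G.diam ≤ 1 := by omega
    exact_mod_cast this
  · obtain ⟨hcard, hval⟩ := sum_ge G hG G.diam (G.diam / 2) rfl (by omega)
    rw [Fintype.card_fin] at hcard hval
    have hlt : G.diam - 2 < n - 2 := by omega
    refine le_trans ?_ (hmax (G.diam - 2) (Finset.mem_range.2 hlt))
    set D := G.diam - 2 with hDdef
    have hc := bug_connected (n - D) (D / 2) (D - D / 2) (by omega)
    have hb := bug_sum_le (n - D) (D / 2) (D - D / 2) (by omega)
    have hdm := bug_diam_ge (n - D) (D / 2) (D - D / 2) (by omega)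
    rw [show D / 2 + (D - D / 2) + 2 = G.diam by omega, show D / 2 + 1 = G.diam / 2 by omega,
      show n - D - 3 = n - (G.diam + 1) by omega] at hb
    rw [show D / 2 + (D - D / 2) + 2 = G.diam by omega] at hdm
    have h1 := avgDist_pos _ hc (by rw [hBcard D hlt]; omega)
    change _ ≤ ((bug (n - D) (D / 2) (D - D / 2)).diam : ℝ) /
      avgDist (bug (n - D) (D / 2) (D - D / 2))
    refine div_le_div₀ (by positivity) (by exact_mod_cast hdm) (by linarith) ?_
    rw [avgDist_eq, avgDist_eq, hBcard D hlt, Fintype.card_fin]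
    have hn' : (3 : ℝ) ≤ n := by exact_mod_cast hn
    refine div_le_div_of_nonneg_right ?_ (by nlinarith)
    exact_mod_cast hb.trans hval

end Pool.Agent.Results.MP_aedb6c_co.BalancedBug
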